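import Pool.Agent.W682.BQ.Stm
import Pool.Agent.W360.IW.Conc

/-! Project BQ, part COEFB: the coefficients of the flow are admissible. -/

set_option autoImplicit false

namespace Pool.Agent.W645.BQ.Coefb

open MeasureTheory Set Filter Topology
open Pool.Agent.W488.IW Pool.Agent.W488.IX Pool.Agent.W682.BQ
open Pool.Agent.W360.BQ (Cf Vg QCF S_FLOWF S_NULLF)
open Pool.Agent.W360.IW.Conc (XX_pos XX_ge XX_lip norm_ss_le ss_lip)

/-! ### primitives -/

theorem prim_deriv {f : ℝ → ℝ} (hf : Continuous f) (t : ℝ) :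
    HasDerivAt (fun u => ∫ x in (0 : ℝ)..u, f x) (f t) t :=
  (hf.integral_hasStrictDerivAt 0 t).hasDerivAt

/-- the primitive of a function with values in `[0,1]` -/
theorem prim_lip {f : ℝ → ℝ} (hf : Continuous f) (h0 : ∀ t, 0 ≤ f t) (h1 : ∀ t, f t ≤ 1)
    {s t : ℝ} (hst : s ≤ t) :
    0 ≤ (∫ x in (0 : ℝ)..t, f x) - ∫ x in (0 : ℝ)..s, f x ∧
    (∫ x in (0 : ℝ)..t, f x) - ∫ x in (0 : ℝ)..s, f x ≤ t - s := by
  rw [intervalIntegral.integral_interval_sub_left (hf.intervalIntegrable _ _)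
    (hf.intervalIntegrable _ _)]
  refine ⟨intervalIntegral.integral_nonneg hst (fun x _ => h0 x), ?_⟩
  have h := intervalIntegral.integral_mono_on (μ := volume) hst (hf.intervalIntegrable _ _)
    (intervalIntegrable_const (c := (1 : ℝ))) (fun x _ => h1 x)
  simpa using h

/-! ### the functions `om1`, `om` -/

section kap

variable {κ : ℝ → ℝ}

theorem k_cont (hκ : Bump κ) : Continuous κ := by
  obtain ⟨L, hL⟩ := hκ.lip
  exact hL.continuous

theorem om1_deriv (hκ : Bump κ) (t : ℝ) : HasDerivAt (om1 κ) (κ t) t :=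
  prim_deriv (k_cont hκ) t

theorem om1_cont (hκ : Bump κ) : Continuous (om1 κ) :=
  continuous_iff_continuousAt.2 fun t => (om1_deriv hκ t).continuousAt

theorem om_deriv (hκ : Bump κ) (t : ℝ) : HasDerivAt (om κ) (om1 κ t) t :=
  prim_deriv (om1_cont hκ) t

theorem om_cont (hκ : Bump κ) : Continuous (om κ) :=
  continuous_iff_continuousAt.2 fun t => (om_deriv hκ t).continuousAt

theorem om1_low (hκ : Bump κ) {t : ℝ} (ht : t ≤ 1 / 2) : om1 κ t = 0 := by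
  unfold om1
  rw [intervalIntegral.integral_congr (g := fun _ => (0 : ℝ))]
  · simp
  · intro s hs
    refine hκ.low s ?_
    rw [uIcc, mem_Icc] at hs
    exact hs.2.trans (max_le (by norm_num) ht)

theorem om_low (hκ : Bump κ) {t : ℝ} (ht : t ≤ 1 / 2) : om κ t = 0 := by
  unfold om
  rw [intervalIntegral.integral_congr (g := fun _ => (0 : ℝ))]
  · simp
  · intro s hs
    refine om1_low hκ ?_
    rw [uIcc, mem_Icc] at hs
    exact hs.2.trans (max_le (by norm_num) ht)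

theorem om1_mono (hκ : Bump κ) : Monotone (om1 κ) :=
  monotone_of_hasDerivAt_nonneg (om1_deriv hκ) hκ.nonneg

theorem om1_nonneg (hκ : Bump κ) (t : ℝ) : 0 ≤ om1 κ t := by
  have h := om1_mono hκ (min_le_left t 0)
  rwa [om1_low hκ (by
    have := min_le_right t 0
    linarith : min t 0 ≤ 1 / 2)] at h

theorem om_mono (hκ : Bump κ) : Monotone (om κ) :=
  monotone_of_hasDerivAt_nonneg (om_deriv hκ) (om1_nonneg hκ)

theorem om_nonneg (hκ : Bump κ) (t : ℝ) : 0 ≤ om κ t := by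
  have h := om_mono hκ (min_le_left t 0)
  rwa [om_low hκ (by
    have := min_le_right t 0
    linarith : min t 0 ≤ 1 / 2)] at h

theorem om1_high (hκ : Bump κ) {t : ℝ} (ht : 2 ≤ t) : om1 κ t = om1 κ 2 := by
  have h : om1 κ t - om1 κ 2 = ∫ s in (2 : ℝ)..t, κ s := by
    unfold om1
    exact intervalIntegral.integral_interval_sub_left ((k_cont hκ).intervalIntegrable _ _)
      ((k_cont hκ).intervalIntegrable _ _)
  rw [intervalIntegral.integral_congr (g := fun _ => (0 : ℝ))] at h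
  · simp only [intervalIntegral.integral_zero] at h
    linarith
  · intro s hs
    rw [uIcc_of_le ht] at hs
    exact hκ.high s hs.1

theorem om_high (hκ : Bump κ) {t : ℝ} (ht : 2 ≤ t) : om κ t = om κ 2 + om1 κ 2 * (t - 2) := by
  have h : om κ t - om κ 2 = ∫ s in (2 : ℝ)..t, om1 κ s := by
    unfold om
    exact intervalIntegral.integral_interval_sub_left ((om1_cont hκ).intervalIntegrable _ _)
      ((om1_cont hκ).intervalIntegrable _ _)
  rw [intervalIntegral.integral_congr (g := fun _ => om1 κ 2)] at h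
  · rw [intervalIntegral.integral_const, smul_eq_mul] at h
    linarith
  · intro s hs
    rw [uIcc_of_le ht] at hs
    exact om1_high hκ hs.1

/-- difference of `om` -/
theorem om_sub (hκ : Bump κ) {s t : ℝ} (hst : s ≤ t) : om κ t - om κ s ≤ (t - s) * om1 κ t := by
  have h : om κ t - om κ s = ∫ u in s..t, om1 κ u := by
    unfold om
    exact intervalIntegral.integral_interval_sub_left ((om1_cont hκ).intervalIntegrable _ _)
      ((om1_cont hκ).intervalIntegrable _ _)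
  rw [h]
  have h2 := intervalIntegral.integral_mono_on (μ := volume) hst
    ((om1_cont hκ).intervalIntegrable _ _)
    (intervalIntegrable_const (c := om1 κ t)) (fun u hu => om1_mono hκ hu.2)
  rw [intervalIntegral.integral_const, smul_eq_mul] at h2
  exact h2

/-- the quotient `om / om1` -/
noncomputable def VV (κ : ℝ → ℝ) (s : ℝ) : ℝ := om κ s / om1 κ s

theorem om_zero_of (hκ : Bump κ) {s : ℝ} (h : om1 κ s = 0) : om κ s = 0 := by
  rcases le_or_gt s (1 / 2) with h1 | h1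
  · exact om_low hκ h1
  · have h2 := om_sub hκ h1.le
    rw [h, mul_zero, om_low hκ (le_refl _), sub_zero] at h2
    exact le_antisymm h2 (om_nonneg hκ s)

theorem VV_nonneg (hκ : Bump κ) (s : ℝ) : 0 ≤ VV κ s :=
  div_nonneg (om_nonneg hκ s) (om1_nonneg hκ s)

theorem VV_sub (hκ : BumpL κ) {s t : ℝ} (hst : s ≤ t) :
    0 ≤ VV κ t - VV κ s ∧ VV κ t - VV κ s ≤ t - s := by
  have hb := hκ.bump
  rcases eq_or_lt_of_le hst with rfl | hlt
  · simp
  rcases eq_or_lt_of_le (om1_nonneg hb s) with h0 | h0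
  · have h1 : VV κ s = 0 := by
      unfold VV
      rw [← h0, div_zero]
    rw [h1, sub_zero]
    refine ⟨VV_nonneg hb t, ?_⟩
    rcases eq_or_lt_of_le (om1_nonneg hb t) with h2 | h2
    · unfold VV
      rw [← h2, div_zero]
      linarith
    · unfold VV
      rw [div_le_iff₀ h2]
      have h3 := om_sub hb hst
      rw [om_zero_of hb h0.symm, sub_zero] at h3
      exact h3
  · have hpos : ∀ u, s ≤ u → 0 < om1 κ u := fun u hu => h0.trans_le (om1_mono hb hu)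
    have hd : ∀ u, s ≤ u → HasDerivAt (VV κ)
        ((om1 κ u * om1 κ u - om κ u * κ u) / om1 κ u ^ 2) u := by
      intro u hu
      exact (om_deriv hb u).div (om1_deriv hb u) (hpos u hu).ne'
    obtain ⟨c, hc, hcv⟩ := exists_hasDerivAt_eq_slope (VV κ)
      (fun u => (om1 κ u * om1 κ u - om κ u * κ u) / om1 κ u ^ 2) hlt
      (fun u hu => (hd u hu.1).continuousAt.continuousWithinAt) (fun u hu => hd u hu.1.le)
    have hts : 0 < t - s := by linarith
    have hcp := hpos c hc.1.le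
    rw [eq_div_iff hts.ne'] at hcv
    rw [← hcv]
    have hlc := hκ.lc c
    have hk := hb.nonneg c
    have ho := om_nonneg hb c
    constructor
    · refine mul_nonneg (div_nonneg ?_ (by positivity)) hts.le
      nlinarith
    · have h4 : (om1 κ c * om1 κ c - om κ c * κ c) / om1 κ c ^ 2 ≤ 1 := by
        rw [div_le_one (by positivity)]
        nlinarith [mul_nonneg ho hk]
      nlinarith

theorem VV_lip (hκ : BumpL κ) (s t : ℝ) : |VV κ s - VV κ t| ≤ |s - t| := by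
  rcases le_total s t with h | h
  · obtain ⟨h1, h2⟩ := VV_sub hκ h
    rw [abs_sub_comm, abs_of_nonneg h1, abs_sub_comm, abs_of_nonneg (by linarith)]
    exact h2
  · obtain ⟨h1, h2⟩ := VV_sub hκ h
    rw [abs_of_nonneg h1, abs_of_nonneg (by linarith)]
    exact h2

theorem VV_le (hκ : BumpL κ) {s : ℝ} (hs : 0 ≤ s) : VV κ s ≤ s := by
  have h := (VV_sub hκ hs).2
  have h0 : VV κ 0 = 0 := by
    unfold VV
    rw [om1_low hκ.bump (by norm_num), div_zero]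
  rw [h0] at h
  linarith

end kap

/-! ### the cut-off function -/

section cut

variable {l : ℝ → ℝ} {η : ℝ}

theorem cut_cont (hl : Cut η l) : Continuous l := hl.c1.continuous

theorem eta_nonneg (hl : Cut η l) : 0 ≤ η := (abs_nonneg _).trans (hl.der 0)

theorem cut_lip (hl : Cut η l) (s t : ℝ) : |l s - l t| ≤ η * |s - t| := by
  have h := convex_univ.norm_image_sub_le_of_norm_deriv_le (f := l) (C := η) (x := t) (y := s)
    (fun x _ => (hl.c1.differentiable (by norm_num)) x) (fun x _ => hl.der x)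
    (mem_univ _) (mem_univ _)
  simpa [Real.norm_eq_abs] using h

theorem JJ_sub (hl : Cut η l) {s t : ℝ} (hst : s ≤ t) :
    0 ≤ JJ l t - JJ l s ∧ JJ l t - JJ l s ≤ t - s :=
  prim_lip (f := fun x => 1 - l x) (continuous_const.sub (cut_cont hl))
    (fun x => by linarith [hl.le x]) (fun x => by linarith [hl.nn x]) hst

theorem JJ_lip (hl : Cut η l) (s t : ℝ) : |JJ l s - JJ l t| ≤ |s - t| := by
  rcases le_total s t with h | h
  · obtain ⟨h1, h2⟩ := JJ_sub hl h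
    rw [abs_sub_comm, abs_of_nonneg h1, abs_sub_comm, abs_of_nonneg (by linarith)]
    exact h2
  · obtain ⟨h1, h2⟩ := JJ_sub hl h
    rw [abs_of_nonneg h1, abs_of_nonneg (by linarith)]
    exact h2

theorem JJ_low (hl : Cut η l) {x : ℝ} (hx : x ≤ 2) : JJ l x = 0 := by
  unfold JJ
  rw [intervalIntegral.integral_congr (g := fun _ => (0 : ℝ))]
  · simp
  · intro s hs
    rw [uIcc, mem_Icc] at hs
    have := hl.one s (hs.2.trans (max_le (by norm_num) hx))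
    simp [this]

theorem JJ_nonneg (hl : Cut η l) {x : ℝ} (hx : 0 ≤ x) : 0 ≤ JJ l x := by
  have h := (JJ_sub hl hx).1
  rwa [JJ_low hl (by norm_num : (0 : ℝ) ≤ 2), sub_zero] at h

/-- `x - JJ l x` is bounded -/
theorem JJ_bd (hl : Cut η l) : ∃ R : ℝ, 0 ≤ R ∧ ∀ x, 0 ≤ x → x - JJ l x ≤ R := by
  obtain ⟨R, hR⟩ := hl.zero
  refine ⟨max R 0, le_max_right _ _, fun x hx => ?_⟩
  rcases le_total x (max R 0) with h | h
  · have := JJ_nonneg hl hx
    linarith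
  · have h1 : JJ l x - JJ l (max R 0) = x - max R 0 := by
      unfold JJ
      have hc : Continuous fun t => 1 - l t := continuous_const.sub (cut_cont hl)
      rw [intervalIntegral.integral_interval_sub_left (hc.intervalIntegrable _ _)
        (hc.intervalIntegrable _ _), intervalIntegral.integral_congr (g := fun _ => (1 : ℝ))]
      · simp
      · intro s hs
        rw [uIcc_of_le h] at hs
        have := hR s ((le_max_left _ _).trans hs.1)
        simp [this]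
    have := JJ_nonneg hl (le_max_right R 0)
    linarith

end cut

/-! ### the quotient `Omc / om1` -/

section W

variable {κ l : ℝ → ℝ} {η : ℝ}

noncomputable def WW (κ l : ℝ → ℝ) (x y : ℝ) : ℝ := Omc κ l x y / om1 κ (x + y)

theorem WW_eq (hκ : BumpL κ) (hl : Cut η l) {x y : ℝ} (hy : 0 ≤ y) :
    WW κ l x y = VV κ (x + y) - JJ l x := by
  unfold WW VV Omc
  rcases le_total x 2 with hx | hx
  · rw [JJ_low hl hx]
    ring
  · have h1 := om1_high hκ.bump (show 2 ≤ x + y by linarith)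
    rw [h1, sub_div, mul_div_cancel_left₀ _ hκ.pos.ne']

theorem WW_nonneg (hκ : BumpL κ) (hl : Cut η l) {x y : ℝ} (hy : 0 ≤ y) :
    0 ≤ WW κ l x y := by
  rw [WW_eq hκ hl hy]
  rcases le_total x 2 with hx | hx
  · rw [JJ_low hl hx, sub_zero]
    exact VV_nonneg hκ.bump _
  · have h1 := (JJ_sub hl hx).2
    rw [JJ_low hl (le_refl _), sub_zero] at h1
    have h2 : x + y - 2 ≤ VV κ (x + y) := by
      unfold VV
      rw [om1_high hκ.bump (show 2 ≤ x + y by linarith),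
        om_high hκ.bump (show 2 ≤ x + y by linarith), le_div_iff₀ hκ.pos]
      have := om_nonneg hκ.bump 2
      linarith
    linarith

theorem WW_bd (hκ : BumpL κ) (hl : Cut η l) : ∃ C : ℝ, 0 ≤ C ∧ ∀ x y, 0 ≤ x → 0 ≤ y →
    WW κ l x y ≤ y + C := by
  obtain ⟨R, hR0, hR⟩ := JJ_bd hl
  refine ⟨R, hR0, fun x y hx hy => ?_⟩
  rw [WW_eq hκ hl hy]
  have h1 := VV_le hκ (show 0 ≤ x + y by linarith)
  have h2 := hR x hx
  linarith

theorem WW_lip (hκ : BumpL κ) (hl : Cut η l) {x y x' y' : ℝ} (hy : 0 ≤ y) (hy' : 0 ≤ y') :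
    |WW κ l x y - WW κ l x' y'| ≤ 2 * |x - x'| + |y - y'| := by
  rw [WW_eq hκ hl hy, WW_eq hκ hl hy']
  have h1 := VV_lip hκ (x + y) (x' + y')
  have h2 := JJ_lip hl x x'
  have h3 : |x + y - (x' + y')| ≤ |x - x'| + |y - y'| := by
    rw [show x + y - (x' + y') = (x - x') + (y - y') by ring]
    exact abs_add_le _ _
  have h4 : VV κ (x + y) - JJ l x - (VV κ (x' + y') - JJ l x') =
      (VV κ (x + y) - VV κ (x' + y')) - (JJ l x - JJ l x') := by ring
  rw [h4]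
  refine (abs_sub _ _).trans ?_
  linarith

theorem n1B_eq (ε x y : ℝ) :
    n1B κ l ε x y = 4 * ε ^ 2 * (WW κ l x y * (1 / ((y ^ 2 + ε ^ 2) * y))) := by
  unfold n1B WW
  rw [mul_one_div, mul_div_assoc]

theorem n1B_nonneg (hκ : BumpL κ) (hl : Cut η l) {ε x y : ℝ} (hy : 0 ≤ y) :
    0 ≤ n1B κ l ε x y := by
  rw [n1B_eq]
  have := WW_nonneg hκ hl hy (x := x)
  positivity

theorem n1B_bd (hκ : BumpL κ) (hl : Cut η l) {ε : ℝ} (hε : 0 < ε) :
    ∃ M : ℝ, ∀ x y, 0 ≤ x → ε ≤ y → n1B κ l ε x y ≤ M := by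
  obtain ⟨C, hC0, hC⟩ := WW_bd hκ hl
  refine ⟨4 * (1 + C / ε), fun x y hx hy => ?_⟩
  have hy0 : 0 < y := hε.trans_le hy
  have h1 := hC x y hx hy0.le
  have h2 : y + C ≤ (1 + C / ε) * y := by
    have h3 : C = C / ε * ε := by field_simp
    have h4 : C / ε * ε ≤ C / ε * y := mul_le_mul_of_nonneg_left hy (by positivity)
    nlinarith
  unfold n1B
  rw [div_le_iff₀ (by positivity)]
  have h5 : Omc κ l x y / om1 κ (x + y) ≤ (1 + C / ε) * y := h1.trans h2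
  have h6 : 0 ≤ 1 + C / ε := by positivity
  calc 4 * ε ^ 2 * (Omc κ l x y / om1 κ (x + y)) ≤ 4 * ε ^ 2 * ((1 + C / ε) * y) :=
        mul_le_mul_of_nonneg_left h5 (by positivity)
    _ ≤ 4 * (y ^ 2 + ε ^ 2) * ((1 + C / ε) * y) := by
        apply mul_le_mul_of_nonneg_right _ (by positivity)
        nlinarith [sq_nonneg y]
    _ = 4 * (1 + C / ε) * ((y ^ 2 + ε ^ 2) * y) := by ring

/-- the weight `G(y) = 1 / ((y^2+ε^2) y)` -/
theorem G_lip {ε y y' : ℝ} (hε : 0 < ε) (hy : ε ≤ y) (hy' : ε ≤ y') :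
    y' * |1 / ((y ^ 2 + ε ^ 2) * y) - 1 / ((y' ^ 2 + ε ^ 2) * y')| ≤ 3 / ε ^ 3 * |y - y'| := by
  have hy0 : 0 < y := hε.trans_le hy
  have hy0' : 0 < y' := hε.trans_le hy'
  have e1 : 1 / ((y ^ 2 + ε ^ 2) * y) - 1 / ((y' ^ 2 + ε ^ 2) * y') =
      (y' - y) * ((y ^ 2 + y * y' + y' ^ 2 + ε ^ 2) /
        ((y ^ 2 + ε ^ 2) * y * ((y' ^ 2 + ε ^ 2) * y'))) := by
    field_simp
    ring
  rw [e1, abs_mul, abs_of_nonneg (by positivity : 0 ≤ (y ^ 2 + y * y' + y' ^ 2 + ε ^ 2) /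
    ((y ^ 2 + ε ^ 2) * y * ((y' ^ 2 + ε ^ 2) * y'))), abs_sub_comm y' y]
  have e2 : y' * (|y - y'| * ((y ^ 2 + y * y' + y' ^ 2 + ε ^ 2) /
      ((y ^ 2 + ε ^ 2) * y * ((y' ^ 2 + ε ^ 2) * y')))) =
      |y - y'| * ((y ^ 2 + y * y' + y' ^ 2 + ε ^ 2) /
        ((y ^ 2 + ε ^ 2) * y * (y' ^ 2 + ε ^ 2))) := by
    field_simp
  rw [e2, mul_comm]
  apply mul_le_mul_of_nonneg_right _ (abs_nonneg _)
  rw [div_le_div_iff₀ (by positivity) (by positivity)]
  have h1 : y ^ 2 + y * y' + y' ^ 2 + ε ^ 2 ≤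
      3 / 2 * (y ^ 2 + ε ^ 2) + 3 / 2 * (y' ^ 2 + ε ^ 2) := by
    nlinarith [sq_nonneg (y - y'), sq_nonneg ε]
  have h2 : ε ^ 2 ≤ y ^ 2 + ε ^ 2 := by nlinarith [sq_nonneg y]
  have h3 : ε ^ 2 ≤ y' ^ 2 + ε ^ 2 := by nlinarith [sq_nonneg y']
  have h4 : (y ^ 2 + ε ^ 2) * ε ^ 3 ≤ (y ^ 2 + ε ^ 2) * y * (y' ^ 2 + ε ^ 2) := by
    have : ε ^ 3 ≤ y * (y' ^ 2 + ε ^ 2) := by
      calc ε ^ 3 = ε * ε ^ 2 := by ring
        _ ≤ y * (y' ^ 2 + ε ^ 2) := mul_le_mul hy h3 (by positivity) hy0.le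
    calc (y ^ 2 + ε ^ 2) * ε ^ 3 ≤ (y ^ 2 + ε ^ 2) * (y * (y' ^ 2 + ε ^ 2)) :=
          mul_le_mul_of_nonneg_left this (by positivity)
      _ = _ := by ring
  have h5 : (y' ^ 2 + ε ^ 2) * ε ^ 3 ≤ (y ^ 2 + ε ^ 2) * y * (y' ^ 2 + ε ^ 2) := by
    have : ε ^ 3 ≤ (y ^ 2 + ε ^ 2) * y := by
      calc ε ^ 3 = ε ^ 2 * ε := by ring
        _ ≤ (y ^ 2 + ε ^ 2) * y := mul_le_mul h2 hy hε.le (by positivity)
    calc (y' ^ 2 + ε ^ 2) * ε ^ 3 ≤ (y' ^ 2 + ε ^ 2) * ((y ^ 2 + ε ^ 2) * y) :=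
          mul_le_mul_of_nonneg_left this (by positivity)
      _ = _ := by ring
  have h6 : (y ^ 2 + y * y' + y' ^ 2 + ε ^ 2) * ε ^ 3 ≤
      (3 / 2 * (y ^ 2 + ε ^ 2) + 3 / 2 * (y' ^ 2 + ε ^ 2)) * ε ^ 3 :=
    mul_le_mul_of_nonneg_right h1 (by positivity)
  nlinarith

theorem n1B_lip (hκ : BumpL κ) (hl : Cut η l) {ε : ℝ} (hε : 0 < ε) :
    ∃ L : ℝ, 0 ≤ L ∧ ∀ x y x' y', 0 ≤ x' → ε ≤ y → ε ≤ y' →
      |n1B κ l ε x y - n1B κ l ε x' y'| ≤ L * (|x - x'| + |y - y'|) := by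
  obtain ⟨C, hC0, hC⟩ := WW_bd hκ hl
  refine ⟨4 * ε ^ 2 * (2 / ε ^ 3 + (1 + C / ε) * (3 / ε ^ 3)), by positivity,
    fun x y x' y' hx' hy hy' => ?_⟩
  have hy0 : 0 < y := hε.trans_le hy
  have hy0' : 0 < y' := hε.trans_le hy'
  rw [n1B_eq, n1B_eq, ← mul_sub, abs_mul, abs_of_nonneg (by positivity : (0 : ℝ) ≤ 4 * ε ^ 2),
    mul_assoc (4 * ε ^ 2) _ (|x - x'| + |y - y'|)]
  apply mul_le_mul_of_nonneg_left _ (by positivity)
  have e1 : WW κ l x y * (1 / ((y ^ 2 + ε ^ 2) * y)) -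
      WW κ l x' y' * (1 / ((y' ^ 2 + ε ^ 2) * y')) =
      (WW κ l x y - WW κ l x' y') * (1 / ((y ^ 2 + ε ^ 2) * y)) +
      WW κ l x' y' * (1 / ((y ^ 2 + ε ^ 2) * y) - 1 / ((y' ^ 2 + ε ^ 2) * y')) := by ring
  rw [e1]
  refine (abs_add_le _ _).trans ?_
  rw [abs_mul, abs_mul]
  have hG : |1 / ((y ^ 2 + ε ^ 2) * y)| ≤ 1 / ε ^ 3 := by
    rw [abs_of_nonneg (by positivity)]
    apply one_div_le_one_div_of_le (by positivity)
    have h2 : ε ^ 2 ≤ y ^ 2 + ε ^ 2 := by nlinarith [sq_nonneg y]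
    calc ε ^ 3 = ε ^ 2 * ε := by ring
      _ ≤ (y ^ 2 + ε ^ 2) * y := mul_le_mul h2 hy hε.le (by positivity)
  have hW := WW_lip hκ hl (x := x) (y := y) (x' := x') (y' := y') hy0.le hy0'.le
  have h1 : |WW κ l x y - WW κ l x' y'| * |1 / ((y ^ 2 + ε ^ 2) * y)| ≤
      (2 * |x - x'| + |y - y'|) * (1 / ε ^ 3) :=
    mul_le_mul hW hG (abs_nonneg _) (by positivity)
  have h2 : |WW κ l x' y'| ≤ (1 + C / ε) * y' := by
    rw [abs_of_nonneg (WW_nonneg hκ hl hy0'.le)]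
    have h3 := hC x' y' hx' hy0'.le
    have h4 : C = C / ε * ε := by field_simp
    have h5 : C / ε * ε ≤ C / ε * y' := mul_le_mul_of_nonneg_left hy' (by positivity)
    nlinarith
  have h3 : |WW κ l x' y'| * |1 / ((y ^ 2 + ε ^ 2) * y) - 1 / ((y' ^ 2 + ε ^ 2) * y')| ≤
      (1 + C / ε) * (3 / ε ^ 3 * |y - y'|) := by
    calc _ ≤ (1 + C / ε) * y' *
          |1 / ((y ^ 2 + ε ^ 2) * y) - 1 / ((y' ^ 2 + ε ^ 2) * y')| :=
          mul_le_mul_of_nonneg_right h2 (abs_nonneg _)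
      _ = (1 + C / ε) * (y' *
          |1 / ((y ^ 2 + ε ^ 2) * y) - 1 / ((y' ^ 2 + ε ^ 2) * y')|) := by ring
      _ ≤ _ := mul_le_mul_of_nonneg_left (G_lip hε hy hy') (by positivity)
  have h4 : (2 * |x - x'| + |y - y'|) * (1 / ε ^ 3) ≤ 2 / ε ^ 3 * (|x - x'| + |y - y'|) := by
    have : 2 / ε ^ 3 * (|x - x'| + |y - y'|) = (2 * |x - x'| + 2 * |y - y'|) * (1 / ε ^ 3) := by
      ring
    rw [this]
    apply mul_le_mul_of_nonneg_right _ (by positivity)
    linarith [abs_nonneg (y - y')]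
  have h5 : (1 + C / ε) * (3 / ε ^ 3 * |y - y'|) ≤
      (1 + C / ε) * (3 / ε ^ 3) * (|x - x'| + |y - y'|) := by
    rw [mul_assoc]
    apply mul_le_mul_of_nonneg_left _ (by positivity)
    apply mul_le_mul_of_nonneg_left _ (by positivity)
    linarith [abs_nonneg (x - x')]
  calc _ ≤ 2 / ε ^ 3 * (|x - x'| + |y - y'|) +
        (1 + C / ε) * (3 / ε ^ 3) * (|x - x'| + |y - y'|) :=
        add_le_add (h1.trans h4) (h3.trans h5)
    _ = _ := by ring

end W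

/-- `y / (1 + y)` -/
theorem frac_lip {y y' : ℝ} (hy : 0 ≤ y) (hy' : 0 ≤ y') :
    |y / (1 + y) - y' / (1 + y')| ≤ |y - y'| := by
  have e : y / (1 + y) - y' / (1 + y') = (y - y') * (1 / ((1 + y) * (1 + y'))) := by
    field_simp
    ring
  rw [e, abs_mul, abs_of_nonneg (by positivity : 0 ≤ 1 / ((1 + y) * (1 + y')))]
  have h1 : 1 / ((1 + y) * (1 + y')) ≤ 1 := by
    rw [div_le_one (by positivity)]
    nlinarith [mul_nonneg hy hy']
  calc |y - y'| * (1 / ((1 + y) * (1 + y'))) ≤ |y - y'| * 1 :=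
        mul_le_mul_of_nonneg_left h1 (abs_nonneg _)
    _ = _ := mul_one _

theorem frac_mono {y y' : ℝ} (hy : 0 ≤ y) (h : y ≤ y') : y / (1 + y) ≤ y' / (1 + y') := by
  rw [div_le_div_iff₀ (by linarith) (by linarith)]
  nlinarith

theorem frac_le {y : ℝ} (hy : 0 ≤ y) : y / (1 + y) ≤ 1 := by
  rw [div_le_one (by linarith)]
  linarith

theorem main : S_COEFB := by
  intro κ l η hκ hl ε δ hε hε1 hδ
  have hl1 : ∀ t, |l t| ≤ 1 := fun t => by
    rw [abs_of_nonneg (hl.nn t)]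
    exact hl.le t
  have hmul : ∀ y : ℝ, δ * y / (1 + y) = δ * (y / (1 + y)) := fun y => mul_div_assoc _ _ _
  obtain ⟨M, hM⟩ := n1B_bd hκ hl hε
  obtain ⟨L, hL0, hL⟩ := n1B_lip hκ hl hε
  have hη := eta_nonneg hl
  have hf1 : ∀ F F' : ℂ × ℂ, ‖F.1 - F'.1‖ ≤ ‖F - F'‖ := fun F F' => norm_fst_le (F - F')
  have hf2 : ∀ F F' : ℂ × ℂ, ‖F.2 - F'.2‖ ≤ ‖F - F'‖ := fun F F' => norm_snd_le (F - F')
  constructor
  · have : 0 < δ * ε / (1 + ε) := by positivity
    linarith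
  · intro F
    unfold mB
    rw [norm_mul, Complex.norm_real, Real.norm_eq_abs]
    calc |l (XX ε F.1)| * ‖ss ε F‖ ≤ 1 * 1 :=
          mul_le_mul (hl1 _) (norm_ss_le hε F) (norm_nonneg _) zero_le_one
      _ = 1 := one_mul 1
  · intro F
    unfold nB
    have h1 := n1B_nonneg hκ hl (ε := ε) (x := XX ε F.1) (XX_pos hε F.2).le
    have h2 := frac_mono hε.le (XX_ge (ε := ε) F.2)
    rw [hmul, hmul]
    have h3 : δ * (ε / (1 + ε)) ≤ δ * (XX ε F.2 / (1 + XX ε F.2)) :=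
      mul_le_mul_of_nonneg_left h2 hδ.le
    linarith
  · refine ⟨2 + 4 * δ + M, fun F => ?_⟩
    unfold nB
    have h1 := hM (XX ε F.1) (XX ε F.2) (XX_pos hε F.1).le (XX_ge F.2)
    have h2 := frac_le (XX_pos hε F.2).le
    rw [hmul]
    have h3 : δ * (XX ε F.2 / (1 + XX ε F.2)) ≤ δ * 1 := mul_le_mul_of_nonneg_left h2 hδ.le
    linarith
  · refine ⟨η + 4 / ε, fun F F' => ?_⟩
    unfold mB
    have e : (l (XX ε F.1) : ℂ) * ss ε F - (l (XX ε F'.1) : ℂ) * ss ε F' =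
        ((l (XX ε F.1) - l (XX ε F'.1) : ℝ) : ℂ) * ss ε F +
        (l (XX ε F'.1) : ℂ) * (ss ε F - ss ε F') := by
      push_cast
      ring
    rw [e]
    refine (norm_add_le _ _).trans ?_
    rw [norm_mul, norm_mul, Complex.norm_real, Complex.norm_real, Real.norm_eq_abs,
      Real.norm_eq_abs]
    have h1 : |l (XX ε F.1) - l (XX ε F'.1)| ≤ η * ‖F - F'‖ := by
      refine (cut_lip hl _ _).trans (mul_le_mul_of_nonneg_left ?_ hη)
      exact (XX_lip hε _ _).trans (hf1 F F')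
    have h2 : |l (XX ε F.1) - l (XX ε F'.1)| * ‖ss ε F‖ ≤ η * ‖F - F'‖ * 1 :=
      mul_le_mul h1 (norm_ss_le hε F) (norm_nonneg _) (by positivity)
    have h3 : ‖ss ε F - ss ε F'‖ ≤ 4 / ε * ‖F - F'‖ := by
      refine (ss_lip hε F F').trans ?_
      have h5 : ‖F.1 - F'.1‖ + ‖F.2 - F'.2‖ ≤ 2 * ‖F - F'‖ := by
        linarith [hf1 F F', hf2 F F']
      calc 2 / ε * (‖F.1 - F'.1‖ + ‖F.2 - F'.2‖) ≤ 2 / ε * (2 * ‖F - F'‖) :=
            mul_le_mul_of_nonneg_left h5 (by positivity)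
        _ = 4 / ε * ‖F - F'‖ := by ring
    have h4 : |l (XX ε F'.1)| * ‖ss ε F - ss ε F'‖ ≤ 1 * (4 / ε * ‖F - F'‖) :=
      mul_le_mul (hl1 _) h3 (norm_nonneg _) zero_le_one
    calc _ ≤ η * ‖F - F'‖ * 1 + 1 * (4 / ε * ‖F - F'‖) := add_le_add h2 h4
      _ = _ := by ring
  · refine ⟨4 * δ + 2 * L, fun F F' => ?_⟩
    unfold nB
    have h1 := hL (XX ε F.1) (XX ε F.2) (XX ε F'.1) (XX ε F'.2) (XX_pos hε F'.1).le (XX_ge F.2)
      (XX_ge F'.2)
    have hx : |XX ε F.1 - XX ε F'.1| ≤ ‖F - F'‖ := (XX_lip hε _ _).trans (hf1 F F')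
    have hy : |XX ε F.2 - XX ε F'.2| ≤ ‖F - F'‖ := (XX_lip hε _ _).trans (hf2 F F')
    have h2 := frac_lip (XX_pos hε F.2).le (XX_pos hε F'.2).le
    have h3 : |δ * (XX ε F.2 / (1 + XX ε F.2)) - δ * (XX ε F'.2 / (1 + XX ε F'.2))| ≤
        δ * ‖F - F'‖ := by
      rw [← mul_sub, abs_mul, abs_of_pos hδ]
      exact mul_le_mul_of_nonneg_left (h2.trans hy) hδ.le
    have h4 : |n1B κ l ε (XX ε F.1) (XX ε F.2) - n1B κ l ε (XX ε F'.1) (XX ε F'.2)| ≤
        L * (2 * ‖F - F'‖) :=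
      h1.trans (mul_le_mul_of_nonneg_left (by linarith) hL0)
    rw [hmul, hmul]
    have e : 2 + 4 * (δ * (XX ε F.2 / (1 + XX ε F.2))) + n1B κ l ε (XX ε F.1) (XX ε F.2) -
        (2 + 4 * (δ * (XX ε F'.2 / (1 + XX ε F'.2))) + n1B κ l ε (XX ε F'.1) (XX ε F'.2)) =
        4 * (δ * (XX ε F.2 / (1 + XX ε F.2)) - δ * (XX ε F'.2 / (1 + XX ε F'.2))) +
        (n1B κ l ε (XX ε F.1) (XX ε F.2) - n1B κ l ε (XX ε F'.1) (XX ε F'.2)) := by ring
    rw [e]
    refine (abs_add_le _ _).trans ?_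
    rw [abs_mul, abs_of_pos (by norm_num : (0 : ℝ) < 4)]
    linarith

end Pool.Agent.W645.BQ.Coefb
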